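import Pool.Agent.Helper13.LZ.Spec

/-! # P5: zeros far from the interval and from the line, on average -/

set_option autoImplicit false

open NumberField Filter Topology MeasureTheory

namespace Pool.Agent.Helper49.LZ

open Pool.Agent.Helper13.LZ
open Pool.Agent.Helper13.ZH (Wn Wn_bdd win_prim good_data)
open Pool.Agent.A856.SD (Good)
open Pool.Agent.Y773 (LI cc TPos)
open Pool.Agent.Y767 (Cls cK)
open Pool.Agent.Y773.IQ (LL LL_eq)
open Pool.Agent.N784.AD (pi1 Un)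
open Pool.Agent.N784.HC
open Pool.Agent.N784.CZ hiding NB
open Pool.Agent.H82R3.EK (cnt cnt_eq_sum)
open H370 (mult zset)

theorem mult_sub (F : ℂ → ℂ) (a z : ℂ) : mult (fun z => F (z - a)) z = mult F (z - a) := by
  unfold mult analyticOrderNatAt
  congr 1
  have hg : AnalyticAt ℂ (fun z : ℂ => z - a) z := by fun_prop
  have hd : deriv (fun z : ℂ => z - a) z ≠ 0 := by
    rw [deriv_sub_const, deriv_id'']; exact one_ne_zero
  exact analyticOrderAt_comp_of_deriv_ne_zero (f := F) hg hd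

/-- the zeros in `bad` lie in windows of length one -/
theorem mem_window {L : ℂ → ℂ} {T κ κe Λ V1 V2 : ℝ} {m : ℕ} (hκe : 0 ≤ κe)
    (hΛ : 0 < Λ) (hV1 : T - 3 * κ ≤ V1) (hV2 : V2 ≤ 2 * T + 3 * κ) (hm : 3 * κ < m) {s : ℂ}
    (hs : s ∈ bad (fun z => L (z - ((3 / 2 * T : ℝ) : ℂ) * Complex.I)) V1 V2 T κe Λ) :
    ∃ k < m, (s - ((3 / 2 * T : ℝ) : ℂ) * Complex.I ∈
        Wn ((κe + k) ^ 2 / (16 * Λ)) (T / 2 + κe + k) 1 ∨
      s - ((3 / 2 * T : ℝ) : ℂ) * Complex.I ∈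
        Wn ((κe + k) ^ 2 / (16 * Λ)) (-(T / 2) - κe - k - 1) 1) := by
  obtain ⟨⟨h1, h2, h3, h4, -⟩, h6, h7⟩ := hs
  set x := dd T s with hx
  have hx3 : x ≤ 3 * κ := by
    rw [hx, dd]
    exact max_le (by linarith) (by linarith)
  have hk1 : ((⌊x - κe⌋₊ : ℕ) : ℝ) ≤ x - κe := Nat.floor_le (by linarith)
  have hk2 : x - κe < ((⌊x - κe⌋₊ : ℕ) : ℝ) + 1 := Nat.lt_floor_add_one _
  set k := ⌊x - κe⌋₊ with hk
  have hkm : k < m := by
    have : (k : ℝ) < m := by linarith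
    exact_mod_cast this
  have hre : (s - ((3 / 2 * T : ℝ) : ℂ) * Complex.I).re = s.re := by simp
  have him : (s - ((3 / 2 * T : ℝ) : ℂ) * Complex.I).im = s.im - 3 / 2 * T := by simp
  have hδ : (κe + k) ^ 2 / (16 * Λ) ≤ |s.re - 1 / 2| := by
    rw [div_le_iff₀ (by positivity)]
    have h8 : (κe + k) ^ 2 ≤ x ^ 2 := by
      apply pow_le_pow_left₀ (by positivity)
      linarith
    linarith
  refine ⟨k, hkm, ?_⟩
  rcases le_total (s.im - 2 * T) (T - s.im) with h | h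
  · right
    have hxe : x = T - s.im := by rw [hx, dd, max_eq_left h]
    refine ⟨by rw [hre]; exact h1, by rw [hre]; exact h2, by rw [hre]; exact hδ, ?_, ?_⟩
    · rw [him]; linarith
    · rw [him]; linarith
  · left
    have hxe : x = s.im - 2 * T := by rw [hx, dd, max_eq_right h]
    refine ⟨by rw [hre]; exact h1, by rw [hre]; exact h2, by rw [hre]; exact hδ, ?_, ?_⟩
    · rw [him]; linarith
    · rw [him]; linarith

theorem cnt_fin {L : ℂ → ℂ} (hL : Differentiable ℂ L) (h2 : L 2 ≠ 0) (δ t : ℝ) :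
    ∃ Z : Finset ℂ, (∀ s ∈ Wn δ t 1, L s = 0 → s ∈ Z) ∧
      (cnt L (Wn δ t 1) : ℝ) = ∑ z ∈ Z, (mult L z : ℝ) := by
  have hfin : {s : ℂ | s ∈ Wn δ t 1 ∧ L s = 0}.Finite := zeros_bdd hL h2 (Wn_bdd δ t 1)
  refine ⟨hfin.toFinset, fun s hs h0 => ?_, ?_⟩
  · rw [Set.Finite.mem_toFinset]; exact ⟨hs, h0⟩
  · rw [cnt_eq_sum hfin.toFinset (fun s hs => ((Set.Finite.mem_toFinset _).1 hs).1)
      (fun s hs h0 => (Set.Finite.mem_toFinset _).2 ⟨hs, h0⟩) (fun s _ => hL.analyticAt s)]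
    push_cast
    rfl

theorem NB_le {L : ℂ → ℂ} (hL : Differentiable ℂ L) (h2 : L 2 ≠ 0) {T κ κe Λ V1 V2 : ℝ} {m : ℕ}
    (hκe : 0 ≤ κe) (hΛ : 0 < Λ) (hV1 : T - 3 * κ ≤ V1) (hV2 : V2 ≤ 2 * T + 3 * κ)
    (hm : 3 * κ < m) :
    NB (fun z => L (z - ((3 / 2 * T : ℝ) : ℂ) * Complex.I)) V1 V2 T κe Λ ≤
      ∑ k ∈ Finset.range m, ((cnt L (Wn ((κe + k) ^ 2 / (16 * Λ)) (T / 2 + κe + k) 1) : ℝ) +
        cnt L (Wn ((κe + k) ^ 2 / (16 * Λ)) (-(T / 2) - κe - k - 1) 1)) := by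
  classical
  set a : ℂ := ((3 / 2 * T : ℝ) : ℂ) * Complex.I with ha
  set F : ℂ → ℂ := fun z => L (z - a) with hF
  choose Z1 hZ1 hc1 using fun k : ℕ =>
    cnt_fin hL h2 ((κe + k) ^ 2 / (16 * Λ)) (T / 2 + κe + k)
  choose Z2 hZ2 hc2 using fun k : ℕ =>
    cnt_fin hL h2 ((κe + k) ^ 2 / (16 * Λ)) (-(T / 2) - κe - k - 1)
  have hmem : ∀ s ∈ bad F V1 V2 T κe Λ, ∃ k < m, s - a ∈ Z1 k ∨ s - a ∈ Z2 k := by
    intro s hs
    have h0 : L (s - a) = 0 := hs.1.2.2.2.2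
    obtain ⟨k, hk, h | h⟩ := mem_window (L := L) hκe hΛ hV1 hV2 hm hs
    · exact ⟨k, hk, Or.inl (hZ1 k _ h h0)⟩
    · exact ⟨k, hk, Or.inr (hZ2 k _ h h0)⟩
  have hfin : (bad F V1 V2 T κe Λ).Finite := by
    have h1 : bad F V1 V2 T κe Λ ⊆ (fun z => z + a) ''
        (((Finset.range m).biUnion fun k => Z1 k ∪ Z2 k : Finset ℂ) : Set ℂ) := by
      intro s hs
      obtain ⟨k, hk, h⟩ := hmem s hs
      refine ⟨s - a, ?_, by simp⟩
      simp only [Finset.coe_biUnion, Set.mem_iUnion, Finset.mem_coe, Finset.mem_union,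
        Finset.mem_range]
      exact ⟨k, hk, h⟩
    exact ((Finset.finite_toSet _).image _).subset h1
  unfold NB
  rw [finsum_mem_eq_finite_toFinset_sum _ hfin]
  have e1 : ∀ s ∈ hfin.toFinset, (mult F s : ℝ) ≤ ∑ k ∈ Finset.range m,
      ((if s - a ∈ Z1 k then (mult L (s - a) : ℝ) else 0) +
        (if s - a ∈ Z2 k then (mult L (s - a) : ℝ) else 0)) := by
    intro s hs
    rw [Set.Finite.mem_toFinset] at hs
    obtain ⟨k, hk, h⟩ := hmem s hs
    rw [hF, mult_sub]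
    have h3 : (mult L (s - a) : ℝ) ≤ (if s - a ∈ Z1 k then (mult L (s - a) : ℝ) else 0) +
        (if s - a ∈ Z2 k then (mult L (s - a) : ℝ) else 0) := by
      have h0 : (0 : ℝ) ≤ mult L (s - a) := Nat.cast_nonneg _
      rcases h with h | h
      · rw [if_pos h]; split_ifs <;> linarith
      · rw [if_pos h]; split_ifs <;> linarith
    refine h3.trans (Finset.single_le_sum (f := fun k =>
      ((if s - a ∈ Z1 k then (mult L (s - a) : ℝ) else 0) +
        (if s - a ∈ Z2 k then (mult L (s - a) : ℝ) else 0))) (fun j _ => ?_)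
      (Finset.mem_range.2 hk))
    have h0 : (0 : ℝ) ≤ mult L (s - a) := Nat.cast_nonneg _
    split_ifs <;> linarith
  refine (Finset.sum_le_sum e1).trans ?_
  rw [Finset.sum_comm]
  refine Finset.sum_le_sum fun k _ => ?_
  rw [Finset.sum_add_distrib, hc1, hc2]
  have e2 : ∀ Z : Finset ℂ, ∑ s ∈ hfin.toFinset, (if s - a ∈ Z then (mult L (s - a) : ℝ) else 0) ≤
      ∑ z ∈ Z, (mult L z : ℝ) := by
    intro Z
    rw [← Finset.sum_filter]
    have h4 : ∑ s ∈ hfin.toFinset.filter (fun s => s - a ∈ Z), (mult L (s - a) : ℝ) =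
        ∑ z ∈ (hfin.toFinset.filter (fun s => s - a ∈ Z)).image (fun s => s - a),
          (mult L z : ℝ) := by
      rw [Finset.sum_image]
      intro x _ y _ hxy
      exact sub_left_injective hxy
    rw [h4]
    refine Finset.sum_le_sum_of_subset_of_nonneg ?_ fun _ _ _ => Nat.cast_nonneg _
    intro z hz
    rw [Finset.mem_image] at hz
    obtain ⟨s, hs, rfl⟩ := hz
    exact (Finset.mem_filter.1 hs).2
  exact add_le_add (e2 _) (e2 _)

/-- the geometric sum -/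
theorem sum_exp_le (m : ℕ) : ∑ k ∈ Finset.range m, Real.exp (-(k : ℝ) / 32) ≤
    (1 - Real.exp (-1 / 32))⁻¹ := by
  have h1 : Real.exp (-1 / 32) < 1 := by
    rw [Real.exp_lt_one_iff]; norm_num
  have h0 : 0 ≤ Real.exp (-1 / 32) := (Real.exp_pos _).le
  have h2 : ∀ k : ℕ, Real.exp (-(k : ℝ) / 32) = Real.exp (-1 / 32) ^ k := by
    intro k
    rw [← Real.exp_nat_mul]; congr 1; ring
  simp_rw [h2]
  rw [← tsum_geometric_of_lt_one h0 h1]
  exact (summable_geometric_of_lt_one h0 h1).sum_le_tsum _ fun _ _ => pow_nonneg h0 _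

theorem p5 : StP5 := by
  classical
  intro K _ _ n hn hn0 D hD
  obtain ⟨A, hA, hwin⟩ := win_prim (K := K) hn hn0 (9 / 10) (1 / 2) (by norm_num) (by norm_num)
    (by norm_num)
  obtain ⟨CX, hCX, hgood⟩ := good_data K hn hn0 1
  set d : ℕ := Module.finrank ℚ K with hd
  have hd1 : 1 ≤ d := Module.finrank_pos
  have hdR : (1 : ℝ) ≤ d := by exact_mod_cast hd1
  set C0 : ℝ := (1 - Real.exp (-1 / 32))⁻¹ with hC0
  have hC0pos : 0 < C0 := by
    rw [hC0, inv_pos, sub_pos, Real.exp_lt_one_iff]; norm_num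
  refine ⟨4 * A * D * C0, 1 / (20 * d), (6 : ℝ) ^ (20 * d), by positivity, by positivity,
    one_le_pow₀ (by norm_num), ?_⟩
  intro 𝔮 hbot htop hN0 S hS hcls T κ κe Λ V1 V2 hT1 hTN hκe hκ hκN hΛ hΛN hUn hV
  set N : ℝ := (Ideal.absNorm 𝔮 : ℝ) with hN
  have hN1 : 1 ≤ N := le_trans (one_le_pow₀ (by norm_num)) hN0
  have hNpos : 0 < N := by linarith
  have hlogN : 0 ≤ Real.log N := Real.log_nonneg hN1
  -- the parameter `T'`
  set T' : ℝ := N ^ (1 / (10 * (d : ℝ))) with hT'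
  have hTd : T' ^ d = N ^ (1 / 10 : ℝ) := by
    rw [hT', ← Real.rpow_natCast, ← Real.rpow_mul hNpos.le]
    congr 1
    field_simp
  have hX : N * T' ^ d = N ^ (11 / 10 : ℝ) := by
    rw [hTd]
    nth_rewrite 1 [← Real.rpow_one N]
    rw [← Real.rpow_add hNpos]
    norm_num
  have hη : 6 ≤ N ^ (1 / (20 * (d : ℝ))) := by
    have h1 : ((6 : ℝ) ^ (20 * d)) ^ (1 / (20 * (d : ℝ))) ≤ N ^ (1 / (20 * (d : ℝ))) :=
      Real.rpow_le_rpow (by positivity) hN0 (by positivity)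
    rw [← Real.rpow_natCast, ← Real.rpow_mul (by norm_num)] at h1
    have h2 : ((20 * d : ℕ) : ℝ) * (1 / (20 * (d : ℝ))) = 1 := by
      push_cast; field_simp
    rwa [h2, Real.rpow_one] at h1
  have hT'2 : T' = N ^ (1 / (20 * (d : ℝ))) * N ^ (1 / (20 * (d : ℝ))) := by
    rw [hT', ← Real.rpow_add hNpos]; congr 1; field_simp; norm_num
  have hT'6 : 6 * N ^ (1 / (20 * (d : ℝ))) ≤ T' := by
    rw [hT'2]; exact mul_le_mul_of_nonneg_right hη (by positivity)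
  have hT'1 : 1 ≤ T' := by nlinarith
  have hXh : (N * T' ^ d) ^ (9 / 10 : ℝ) ≤ N := by
    rw [hX, ← Real.rpow_mul hNpos.le]
    calc N ^ (11 / 10 * (9 / 10) : ℝ) ≤ N ^ (1 : ℝ) :=
          Real.rpow_le_rpow_of_exponent_le hN1 (by norm_num)
      _ = N := Real.rpow_one N
  have hlogX : Real.log (N * T' ^ d) ≤ 2 * Real.log N := by
    rw [hX, Real.log_rpow hNpos]; nlinarith
  have hXN : N ≤ N * T' ^ d := le_mul_of_one_le_right hNpos.le (one_le_pow₀ hT'1)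
  -- the windows
  set m : ℕ := ⌊3 * κ⌋₊ + 1 with hm
  have hm3 : 3 * κ < m := by rw [hm]; push_cast; exact Nat.lt_floor_add_one _
  have hk3 : ∀ k ∈ Finset.range m, (k : ℝ) ≤ 3 * κ := by
    intro k hk
    have h1 : k ≤ ⌊3 * κ⌋₊ := by
      have := Finset.mem_range.1 hk; omega
    exact (Nat.le_floor_iff (by linarith)).1 h1
  have hdat : ∀ ψ ∈ S, Differentiable ℂ (LL K ψ) ∧ LL K ψ 2 ≠ 0 := by
    intro ψ hψ
    obtain ⟨𝔣, h1, h2, h3⟩ := hS ψ hψ
    obtain ⟨F, X, hG⟩ := hgood 𝔣 ψ h2 h3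
    have hG' := hG
    rw [← LL_eq K hG.dF hG.ser] at hG'
    refine ⟨hG'.dF, ?_⟩
    rw [hG'.ser 2 (by norm_num)]
    exact LI_ne (FamN_norm_le (hS ψ hψ)) (by norm_num)
  have hwin' : ∀ k ∈ Finset.range m, ∀ t : ℝ, |t| ≤ T' →
      ∑ ψ ∈ S, (cnt (LL K ψ) (Wn ((κe + k) ^ 2 / (16 * Λ)) t 1) : ℝ) ≤
        2 * A * Nat.card (Cls (pi1 htop)) * Real.log N * Real.exp (-(k : ℝ) / 32) := by
    intro k hk t ht
    have h1 := hwin 𝔮 hbot htop T' 1 le_rfl hT'1 hXh S hS t ht ((κe + k) ^ 2 / (16 * Λ))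
      (by positivity)
    refine h1.trans ?_
    have h2 : (N * T' ^ d) ^ (-(1 / 2 * ((κe + k) ^ 2 / (16 * Λ)))) ≤
        Real.exp (-(κe ^ 2) / 32) * Real.exp (-(k : ℝ) / 32) := by
      calc (N * T' ^ d) ^ (-(1 / 2 * ((κe + k) ^ 2 / (16 * Λ))))
          ≤ N ^ (-(1 / 2 * ((κe + k) ^ 2 / (16 * Λ)))) :=
            Real.rpow_le_rpow_of_nonpos hNpos hXN (by
              have : 0 ≤ (κe + k) ^ 2 / (16 * Λ) := by positivity
              linarith)
        _ = Real.exp (-((κe + k) ^ 2 / 32 * (Real.log N / Λ))) := by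
            rw [Real.rpow_def_of_pos hNpos]
            congr 1
            field_simp
            ring
        _ ≤ Real.exp (-(κe ^ 2) / 32 + -(k : ℝ) / 32) := by
            rw [Real.exp_le_exp]
            have h3 : 1 ≤ Real.log N / Λ := by rwa [one_le_div hΛ]
            have h4 : κe ^ 2 + k ≤ (κe + k) ^ 2 := by
              have h5 : (k : ℝ) ≤ (k : ℝ) ^ 2 := by
                have : k ≤ k ^ 2 := Nat.le_self_pow two_ne_zero k
                exact_mod_cast this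
              have h6 : (0 : ℝ) ≤ k := Nat.cast_nonneg _
              nlinarith
            have h7 : (κe + k) ^ 2 / 32 * 1 ≤ (κe + k) ^ 2 / 32 * (Real.log N / Λ) :=
              mul_le_mul_of_nonneg_left h3 (by positivity)
            linarith
        _ = _ := Real.exp_add _ _
    have hUe : (Un 𝔮 : ℝ) * Real.exp (-(κe ^ 2) / 32) ≤ 1 := by
      calc (Un 𝔮 : ℝ) * Real.exp (-(κe ^ 2) / 32)
          ≤ Real.exp (κe ^ 2 / 32) * Real.exp (-(κe ^ 2) / 32) :=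
            mul_le_mul_of_nonneg_right hUn (Real.exp_pos _).le
        _ = 1 := by rw [← Real.exp_add]; convert Real.exp_zero using 2; ring
    have hcard : (0 : ℝ) ≤ Nat.card (Cls (pi1 htop)) := Nat.cast_nonneg _
    have hUn0 : (0 : ℝ) ≤ Un 𝔮 := Nat.cast_nonneg _
    have hA0 : 0 ≤ A := by linarith
    have hlogX0 : 0 ≤ Real.log (N * T' ^ d) := Real.log_nonneg (hN1.trans hXN)
    calc A * (Nat.card (Cls (pi1 htop)) * Un 𝔮 * 1 * Real.log (N * T' ^ d) *
          (N * T' ^ d) ^ (-(1 / 2 * ((κe + k) ^ 2 / (16 * Λ)))))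
        ≤ A * (Nat.card (Cls (pi1 htop)) * Un 𝔮 * 1 * (2 * Real.log N) *
          (Real.exp (-(κe ^ 2) / 32) * Real.exp (-(k : ℝ) / 32))) := by
          refine mul_le_mul_of_nonneg_left ?_ hA0
          refine mul_le_mul (mul_le_mul_of_nonneg_left hlogX (by positivity)) h2
            (Real.rpow_nonneg (by positivity) _) (by positivity)
      _ = (2 * A * Nat.card (Cls (pi1 htop)) * Real.log N * Real.exp (-(k : ℝ) / 32)) *
          ((Un 𝔮 : ℝ) * Real.exp (-(κe ^ 2) / 32)) := by ring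
      _ ≤ (2 * A * Nat.card (Cls (pi1 htop)) * Real.log N * Real.exp (-(k : ℝ) / 32)) * 1 :=
          mul_le_mul_of_nonneg_left hUe (by positivity)
      _ = _ := mul_one _
  rcases S.eq_empty_or_nonempty with hSe | hSne
  · rw [hSe, Finset.sum_empty]; positivity
  have hScard : (0 : ℝ) < S.card := by exact_mod_cast hSne.card_pos
  have hκe0 : 0 ≤ κe := by linarith
  have hbnd : ∀ k ∈ Finset.range m, |T / 2 + κe + k| ≤ T' ∧ |-(T / 2) - κe - k - 1| ≤ T' := by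
    intro k hk
    have h1 := hk3 k hk
    have h2 : (0 : ℝ) ≤ k := Nat.cast_nonneg _
    have h3 : T / 2 + κe + k + 1 ≤ T' := by nlinarith
    constructor
    · rw [abs_of_nonneg (by linarith)]; linarith
    · rw [abs_of_nonpos (by linarith)]; linarith
  calc ∑ ψ ∈ S, (S.card : ℝ)⁻¹ * NB (fun z => LL K ψ (z - ((3 / 2 * T : ℝ) : ℂ) * Complex.I))
        (V1 ψ) (V2 ψ) T κe Λ
      ≤ ∑ ψ ∈ S, (S.card : ℝ)⁻¹ * ∑ k ∈ Finset.range m,
        ((cnt (LL K ψ) (Wn ((κe + k) ^ 2 / (16 * Λ)) (T / 2 + κe + k) 1) : ℝ) +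
          cnt (LL K ψ) (Wn ((κe + k) ^ 2 / (16 * Λ)) (-(T / 2) - κe - k - 1) 1)) := by
        refine Finset.sum_le_sum fun ψ hψ => mul_le_mul_of_nonneg_left ?_ (by positivity)
        exact NB_le (hdat ψ hψ).1 (hdat ψ hψ).2 hκe0 hΛ (hV ψ hψ).1 (hV ψ hψ).2 hm3
    _ = (S.card : ℝ)⁻¹ * ∑ k ∈ Finset.range m,
        (∑ ψ ∈ S, (cnt (LL K ψ) (Wn ((κe + k) ^ 2 / (16 * Λ)) (T / 2 + κe + k) 1) : ℝ) +
          ∑ ψ ∈ S, (cnt (LL K ψ) (Wn ((κe + k) ^ 2 / (16 * Λ))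
            (-(T / 2) - κe - k - 1) 1) : ℝ)) := by
        rw [← Finset.mul_sum, Finset.sum_comm]
        congr 1
        refine Finset.sum_congr rfl fun k _ => ?_
        rw [Finset.sum_add_distrib]
    _ ≤ (S.card : ℝ)⁻¹ * ∑ k ∈ Finset.range m,
        (4 * A * Nat.card (Cls (pi1 htop)) * Real.log N * Real.exp (-(k : ℝ) / 32)) := by
        refine mul_le_mul_of_nonneg_left (Finset.sum_le_sum fun k hk => ?_) (by positivity)
        have h1 := hwin' k hk _ (hbnd k hk).1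
        have h2 := hwin' k hk _ (hbnd k hk).2
        linarith
    _ = (S.card : ℝ)⁻¹ * (4 * A * Nat.card (Cls (pi1 htop)) * Real.log N *
        ∑ k ∈ Finset.range m, Real.exp (-(k : ℝ) / 32)) := by
        congr 1
        exact (Finset.mul_sum _ _ _).symm
    _ ≤ (S.card : ℝ)⁻¹ * (4 * A * (D * S.card) * Real.log N * C0) := by
        refine mul_le_mul_of_nonneg_left ?_ (by positivity)
        have hcard : (0 : ℝ) ≤ Nat.card (Cls (pi1 htop)) := Nat.cast_nonneg _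
        have hA0 : 0 ≤ A := by linarith
        have hs0 : 0 ≤ ∑ k ∈ Finset.range m, Real.exp (-(k : ℝ) / 32) :=
          Finset.sum_nonneg fun _ _ => (Real.exp_pos _).le
        refine mul_le_mul (mul_le_mul_of_nonneg_right (mul_le_mul_of_nonneg_left hcls
          (by positivity)) hlogN) (sum_exp_le m) hs0 (by positivity)
    _ = ((S.card : ℝ)⁻¹ * S.card) * (4 * A * D * C0 * Real.log N) := by ring
    _ = 4 * A * D * C0 * Real.log N := by rw [inv_mul_cancel₀ hScard.ne', one_mul]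

end Pool.Agent.Helper49.LZ
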